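import Pool.Agent.H165Z.Diam.Main

set_option autoImplicit false

namespace Pool.Agent.Results.MP_9ec5dc_an.ALowerBound

open Pool.Agent.H165Z.Diam Filter Topology

/-- For every compact plane set of transfinite diameter one, `d_n(E) ≥ n^{1/(n-1)}` for `n ≥ 2`. -/
theorem result (E : Set ℂ) (hE : IsCompact E) (h : Tendsto (nthDiam E) atTop (𝓝 1)) (n : ℕ)
    (hn : 2 ≤ n) : (n : ℝ) ^ ((1 : ℝ) / ((n : ℝ) - 1)) ≤ nthDiam E n :=
  Pool.Agent.H165Z.Diam.main E hE h n hn

end Pool.Agent.Results.MP_9ec5dc_an.ALowerBound
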